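import Pool.Agent.Helper73.FU.Final

/-!
# MP_a2630c_gt: the homothety problem for the body of buoyancy

Let `n ≥ 1`, and let `K` be a convex body in `ℝⁿ`. If `K` is homothetic to its body of buoyancy
`B_d(K)` for one `d` with `0 < d < vol(K)`, then `K` is an ellipsoid.
-/

open MeasureTheory Metric
open Pool.Agent.Helper16.Buoy

namespace Pool.Agent.Results.MP_a2630c_gt.AllBodies

theorem result (n : ℕ) (hn : 1 ≤ n) (K : Set (E n)) (d : ℝ) (h1 : Convex ℝ K) (h2 : IsCompact K)
    (h3 : (interior K).Nonempty) (hd0 : 0 < d) (hd1 : ENNReal.ofReal d < volume K)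
    (hh : Homothetic K (buoyancyBody K d)) : IsEllipsoid K :=
  Pool.Agent.Helper73.FU.all_bodies hn h1 h2 h3 hd0 hd1 hh

end Pool.Agent.Results.MP_a2630c_gt.AllBodies
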